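import Pool.Agent.Q55.Sy.Pos

/-!
# Positivity of real-valued invariant forms on rational representations

A real-valued rational bilinear form on a rational vector space, invariant under the symmetric group
of `Fin n × Bool`, is positive on all nonzero vectors if it is positive on the nonzero vectors fixed
by the permutations of `Fin n`. The form may be degenerate after extension of scalars to the real
numbers.
-/

set_option autoImplicit false
set_option linter.unusedSectionVars false

open Equiv Finset TensorProduct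

namespace Pool.Agent.Q56.HT

open Pool.Agent.Q56.SP
open Pool.Agent.Q55.Sy (pos_real)

variable {n : ℕ}

/-- Semidefinite invariant forms on real representations. -/
theorem nonneg_real {V : Type*} [AddCommGroup V] [Module ℝ V] [FiniteDimensional ℝ V]
    (ρ : Representation ℝ (Perm (Fin n × Bool)) V) (q : LinearMap.BilinForm ℝ V)
    (hsym : ∀ x y, q x y = q y x) (hinv : ∀ g x y, q (ρ g x) (ρ g y) = q x y)
    (hnn : ∀ v, (∀ σ : Perm (Fin n), ρ (dg σ) v = v) → 0 ≤ q v v) (x : V) : 0 ≤ q x x := by
  classical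
  let b := Module.finBasis ℝ V
  let p : LinearMap.BilinForm ℝ V := LinearMap.mk₂ ℝ
    (fun x y => ∑ g : Perm (Fin n × Bool), ∑ i, b.repr (ρ g x) i * b.repr (ρ g y) i)
    (fun x y z => by
      simp only [map_add, Finsupp.add_apply, add_mul, Finset.sum_add_distrib])
    (fun r x y => by
      simp only [map_smul, Finsupp.smul_apply, smul_eq_mul, Finset.mul_sum, mul_assoc])
    (fun x y z => by
      simp only [map_add, Finsupp.add_apply, mul_add, Finset.sum_add_distrib])
    (fun r x y => by
      simp only [map_smul, Finsupp.smul_apply, smul_eq_mul, Finset.mul_sum, mul_left_comm])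
  have hp : ∀ x y, p x y = ∑ g : Perm (Fin n × Bool), ∑ i, b.repr (ρ g x) i * b.repr (ρ g y) i :=
    fun _ _ => rfl
  have hp0 : ∀ x, 0 ≤ p x x := fun x =>
    Finset.sum_nonneg fun g _ => Finset.sum_nonneg fun i _ => mul_self_nonneg _
  have hp1 : ∀ x, x ≠ 0 → 0 < p x x := by
    intro x hx
    refine lt_of_le_of_ne (hp0 x) fun h => hx ?_
    have h1 := (Finset.sum_eq_zero_iff_of_nonneg fun g _ =>
      Finset.sum_nonneg fun i _ => mul_self_nonneg _).1 ((hp x x).symm.trans h.symm) 1
      (Finset.mem_univ _)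
    rw [map_one] at h1
    have h2 := (Finset.sum_eq_zero_iff_of_nonneg fun i _ => mul_self_nonneg _).1 h1
    apply b.repr.injective
    ext i
    rw [map_zero]
    exact mul_self_eq_zero.1 (h2 i (Finset.mem_univ i))
  have hpi : ∀ g x y, p (ρ g x) (ρ g y) = p x y := by
    intro g x y
    rw [hp, hp]
    refine Fintype.sum_equiv (Equiv.mulRight g) _ _ fun h => ?_
    simp only [Equiv.coe_mulRight, map_mul, Module.End.mul_apply]
  rcases eq_or_ne x 0 with rfl | hx
  · rw [map_zero]
  by_contra hneg
  push Not at hneg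
  have hpx := hp1 x hx
  let ε : ℝ := - q x x / p x x
  have hε : 0 < ε := div_pos (by linarith) hpx
  have key := pos_real ρ (q + ε • p) (fun x y => ?_) (fun g x y => ?_) (fun v hv0 hv => ?_) x hx
  · have h1 : (q + ε • p) x x = q x x + ε * p x x := rfl
    rw [h1, div_mul_cancel₀ _ hpx.ne'] at key
    linarith
  · change q x y + ε * p x y = q y x + ε * p y x
    rw [hsym x y, hp x y, hp y x]
    congr 2
    exact Finset.sum_congr rfl fun g _ => Finset.sum_congr rfl fun i _ => mul_comm _ _
  · change q (ρ g x) (ρ g y) + ε * p (ρ g x) (ρ g y) = q x y + ε * p x y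
    rw [hinv, hpi]
  · change 0 < q v v + ε * p v v
    have := hnn v hv
    have := mul_pos hε (hp1 v hv0)
    linarith

/-- A real quadratic form which is nonnegative at all rational points is nonnegative. -/
theorem nonneg_of_rat {ι : Type*} [Fintype ι] (c : ι → ι → ℝ)
    (h : ∀ a : ι → ℚ, 0 ≤ ∑ i, ∑ j, (a i : ℝ) * (a j : ℝ) * c i j) (a : ι → ℝ) :
    0 ≤ ∑ i, ∑ j, a i * a j * c i j := by
  have hc : Continuous fun a : ι → ℝ => ∑ i, ∑ j, a i * a j * c i j := by fun_prop
  have hd : DenseRange fun (a : ι → ℚ) (i : ι) => (a i : ℝ) :=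
    DenseRange.piMap fun _ => Rat.denseRange_cast
  exact hd.induction_on (p := fun a : ι → ℝ => 0 ≤ ∑ i, ∑ j, a i * a j * c i j) a
    (isClosed_le continuous_const hc) h

/-- Semidefiniteness of real-valued invariant forms on finite-dimensional rational
representations. -/
theorem nonneg_fin {V : Type*} [AddCommGroup V] [Module ℚ V] [FiniteDimensional ℚ V]
    (ρ : Representation ℚ (Perm (Fin n × Bool)) V) (q : V →ₗ[ℚ] V →ₗ[ℚ] ℝ)
    (hsym : ∀ x y, q x y = q y x) (hinv : ∀ g x y, q (ρ g x) (ρ g y) = q x y)
    (hnn : ∀ v, (∀ σ : Perm (Fin n), ρ (dg σ) v = v) → 0 ≤ q v v) (x : V) : 0 ≤ q x x := by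
  classical
  let ρR : Representation ℝ (Perm (Fin n × Bool)) (ℝ ⊗[ℚ] V) :=
    { toFun := fun g => (ρ g).baseChange ℝ
      map_one' := by
        rw [map_one]
        exact LinearMap.baseChange_id
      map_mul' := fun g h => by
        rw [map_mul]
        exact LinearMap.baseChange_comp _ _ }
  let q1 : V →ₗ[ℚ] (ℝ ⊗[ℚ] V →ₗ[ℝ] ℝ) :=
    ((LinearMap.liftBaseChangeEquiv ℝ).toLinearMap.restrictScalars ℚ) ∘ₗ q
  let qR : LinearMap.BilinForm ℝ (ℝ ⊗[ℚ] V) := LinearMap.liftBaseChange ℝ q1
  have hqR : ∀ (a b : ℝ) (x y : V), qR (a ⊗ₜ x) (b ⊗ₜ y) = a * b * q x y := by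
    intro a b x y
    change (LinearMap.liftBaseChange ℝ q1 (a ⊗ₜ x)) (b ⊗ₜ y) = _
    rw [LinearMap.liftBaseChange_tmul, LinearMap.smul_apply]
    change a • (LinearMap.liftBaseChange ℝ (q x) (b ⊗ₜ y)) = _
    rw [LinearMap.liftBaseChange_tmul, smul_eq_mul, smul_eq_mul, mul_assoc]
  let av : V →ₗ[ℚ] V := ((Fintype.card (Perm (Fin n)) : ℚ)⁻¹) • ∑ σ : Perm (Fin n), ρ (dg σ)
  have hav : ∀ v, ∀ τ : Perm (Fin n), ρ (dg τ) (av v) = av v := by
    intro v τ
    change ρ (dg τ) (((Fintype.card (Perm (Fin n)) : ℚ)⁻¹) • (∑ σ : Perm (Fin n), ρ (dg σ)) v) =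
      ((Fintype.card (Perm (Fin n)) : ℚ)⁻¹) • (∑ σ : Perm (Fin n), ρ (dg σ)) v
    rw [map_smul, LinearMap.sum_apply, map_sum]
    congr 1
    refine Fintype.sum_equiv (Equiv.mulLeft τ) _ _ fun σ => ?_
    rw [← Module.End.mul_apply, ← map_mul, ← dg_mul]
    rfl
  let b := Module.finBasis ℚ V
  have key := nonneg_real ρR qR (fun x y => ?_) (fun g x y => ?_) (fun v hv => ?_)
    ((1 : ℝ) ⊗ₜ[ℚ] x)
  · rw [hqR, one_mul, one_mul] at key
    exact key
  · induction x using TensorProduct.induction_on with
    | zero => rw [map_zero, map_zero, LinearMap.zero_apply]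
    | add x x' hx hx' => rw [map_add, map_add, LinearMap.add_apply, hx, hx']
    | tmul a x =>
      induction y using TensorProduct.induction_on with
      | zero => rw [map_zero, map_zero, LinearMap.zero_apply]
      | add y y' hy hy' => rw [map_add, map_add, LinearMap.add_apply, hy, hy']
      | tmul b y => rw [hqR, hqR, hsym x y, mul_comm a b]
  · induction x using TensorProduct.induction_on with
    | zero => rw [map_zero, map_zero, LinearMap.zero_apply, LinearMap.zero_apply]
    | add x x' hx hx' => rw [map_add, map_add, map_add, LinearMap.add_apply, LinearMap.add_apply,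
        hx, hx']
    | tmul a x =>
      induction y using TensorProduct.induction_on with
      | zero => rw [map_zero, map_zero, map_zero]
      | add y y' hy hy' => rw [map_add, map_add, map_add, hy, hy']
      | tmul b y =>
        change qR ((ρ g).baseChange ℝ (a ⊗ₜ x)) ((ρ g).baseChange ℝ (b ⊗ₜ y)) = _
        rw [LinearMap.baseChange_tmul, LinearMap.baseChange_tmul, hqR, hqR, hinv]
  · -- the invariants of the real representation
    have h2 : av.baseChange ℝ v = v := by
      have e1 : av.baseChange ℝ v = ((Fintype.card (Perm (Fin n)) : ℚ)⁻¹) •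
          ∑ σ : Perm (Fin n), (ρ (dg σ)).baseChange ℝ v := by
        rw [LinearMap.baseChange_smul, LinearMap.smul_apply]
        congr 1
        have e2 : (∑ σ : Perm (Fin n), ρ (dg σ)).baseChange ℝ =
            ∑ σ : Perm (Fin n), (ρ (dg σ)).baseChange ℝ := by
          exact map_sum (LinearMap.baseChangeHom ℚ ℝ V V) _ _
        rw [e2, LinearMap.sum_apply]
      have e3 : ∀ σ : Perm (Fin n), (ρ (dg σ)).baseChange ℝ v = v := hv
      rw [e1, Finset.sum_congr rfl fun σ _ => e3 σ, Finset.sum_const, Finset.card_univ,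
        ← Nat.cast_smul_eq_nsmul ℚ, smul_smul, inv_mul_cancel₀, one_smul]
      exact_mod_cast Fintype.card_ne_zero
    clear_value av
    let B := b.baseChange ℝ
    have hB : ∀ i, B i = (1 : ℝ) ⊗ₜ[ℚ] b i := fun i => Module.Basis.baseChange_apply ..
    have h3 : v = ∑ i, B.repr v i • ((1 : ℝ) ⊗ₜ[ℚ] av (b i)) := by
      conv_lhs => rw [← h2, ← B.sum_repr v, map_sum]
      refine Finset.sum_congr rfl fun i _ => ?_
      rw [map_smul, hB, LinearMap.baseChange_tmul]
    have h4 : qR v v = ∑ i, ∑ j, B.repr v i * B.repr v j * q (av (b i)) (av (b j)) := by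
      conv_lhs => rw [h3]
      rw [map_sum qR, LinearMap.sum_apply]
      refine Finset.sum_congr rfl fun i _ => ?_
      rw [map_sum]
      refine Finset.sum_congr rfl fun j _ => ?_
      rw [map_smul, map_smul, LinearMap.smul_apply, hqR, smul_eq_mul, smul_eq_mul]
      ring
    rw [h4]
    refine nonneg_of_rat (fun i j => q (av (b i)) (av (b j))) (fun a => ?_) _
    have h5 : ∑ i, ∑ j, (a i : ℝ) * (a j : ℝ) * q (av (b i)) (av (b j)) =
        q (∑ i, a i • av (b i)) (∑ i, a i • av (b i)) := by
      rw [map_sum q, LinearMap.sum_apply]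
      refine Finset.sum_congr rfl fun i _ => ?_
      rw [map_sum]
      refine Finset.sum_congr rfl fun j _ => ?_
      rw [map_smul q (a i), LinearMap.smul_apply, map_smul (q (av (b i))) (a j), Rat.smul_def,
        Rat.smul_def]
      ring
    rw [h5]
    refine hnn _ fun σ => ?_
    rw [map_sum]
    exact Finset.sum_congr rfl fun i _ => by rw [map_smul, hav]

/-- **Real-valued invariant forms.** A real-valued rational bilinear form, invariant under the
symmetric group of `Fin n × Bool`, is positive on the nonzero vectors of an invariant subspace if it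
is positive on those which are fixed by the permutations of `Fin n`. No symmetry of the form and no
finiteness of the dimension is supposed. -/
theorem pos_iff {H : Type*} [AddCommGroup H] [Module ℚ H]
    (ρ : Representation ℚ (Perm (Fin n × Bool)) H) (P : Submodule ℚ H)
    (hP : ∀ g, ∀ v ∈ P, ρ g v ∈ P) (q : H →ₗ[ℚ] H →ₗ[ℚ] ℝ)
    (hinv : ∀ g, ∀ x ∈ P, ∀ y ∈ P, q (ρ g x) (ρ g y) = q x y)
    (hpos : ∀ v ∈ P, v ≠ 0 → (∀ σ : Perm (Fin n), ρ (dg σ) v = v) → 0 < q v v) :
    ∀ x ∈ P, x ≠ 0 → 0 < q x x := by
  classical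
  -- the symmetrised form
  let s : H →ₗ[ℚ] H →ₗ[ℚ] ℝ := q + q.flip
  have hs : ∀ x y, s x y = q x y + q y x := fun _ _ => rfl
  -- semidefiniteness
  have semi : ∀ x ∈ P, ∀ y ∈ P, ∀ t : ℚ, 0 ≤ s (x + t • y) (x + t • y) := by
    intro x hx y hy t
    let V : Submodule ℚ H := Submodule.span ℚ
      (Set.range (fun g => ρ g x) ∪ Set.range fun g => ρ g y)
    have hfin : FiniteDimensional ℚ V := FiniteDimensional.span_of_finite ℚ
      ((Set.finite_range _).union (Set.finite_range _))
    have hVP : V ≤ P := Submodule.span_le.2 (by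
      rintro _ (⟨g, rfl⟩ | ⟨g, rfl⟩)
      · exact hP g x hx
      · exact hP g y hy)
    have hV : ∀ g, ∀ v ∈ V, ρ g v ∈ V := by
      intro g v hv
      induction hv using Submodule.span_induction with
      | mem z hz =>
        rcases hz with ⟨h, rfl⟩ | ⟨h, rfl⟩
        · refine Submodule.subset_span (Or.inl ⟨g * h, ?_⟩)
          change ρ (g * h) x = ρ g (ρ h x)
          rw [map_mul, Module.End.mul_apply]
        · refine Submodule.subset_span (Or.inr ⟨g * h, ?_⟩)
          change ρ (g * h) y = ρ g (ρ h y)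
          rw [map_mul, Module.End.mul_apply]
      | zero => rw [map_zero]; exact Submodule.zero_mem _
      | add y z _ _ hy hz => rw [map_add]; exact Submodule.add_mem _ hy hz
      | smul c y _ hy => rw [map_smul]; exact Submodule.smul_mem _ _ hy
    let ρV : Representation ℚ (Perm (Fin n × Bool)) V :=
      { toFun := fun g => (ρ g).restrict (hV g)
        map_one' := by
          ext v
          change ρ 1 (v : H) = v
          rw [map_one]; rfl
        map_mul' := fun g h => by
          ext v
          change ρ (g * h) (v : H) = ρ g (ρ h v)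
          rw [map_mul]; rfl }
    have hxV : x ∈ V := Submodule.subset_span (Or.inl ⟨1, by
      change ρ 1 x = x
      rw [map_one]; rfl⟩)
    have hyV : y ∈ V := Submodule.subset_span (Or.inr ⟨1, by
      change ρ 1 y = y
      rw [map_one]; rfl⟩)
    let sV : V →ₗ[ℚ] V →ₗ[ℚ] ℝ := s.domRestrict₁₂ V V
    exact nonneg_fin ρV sV (fun a b => by
        change s a b = s b a
        rw [hs, hs, add_comm])
      (fun g a b => by
        change s (ρ g a) (ρ g b) = s a b
        rw [hs, hs, hinv g a (hVP a.2) b (hVP b.2), hinv g b (hVP b.2) a (hVP a.2)])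
      (fun v hv => by
        change 0 ≤ s v v
        rcases eq_or_ne (v : H) 0 with h0 | h0
        · rw [h0, map_zero]
        · have := hpos v (hVP v.2) h0 fun σ => congrArg Subtype.val (hv σ)
          rw [hs]
          linarith)
      ⟨x + t • y, V.add_mem hxV (V.smul_mem t hyV)⟩
  intro x hx hx0
  have h0 : 0 ≤ s x x := by
    have := semi x hx 0 (Submodule.zero_mem P) 0
    rwa [smul_zero, add_zero] at this
  by_contra hneg
  push Not at hneg
  have hsx : s x x = 0 := by
    have : s x x = 2 * q x x := by rw [hs]; ring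
    linarith
  -- the radical
  let R : Submodule ℚ H :=
    { carrier := {z | z ∈ P ∧ ∀ y ∈ P, s z y = 0}
      zero_mem' := ⟨P.zero_mem, fun y _ => by rw [map_zero, LinearMap.zero_apply]⟩
      add_mem' := fun {a b} ha hb => ⟨P.add_mem ha.1 hb.1, fun y hy => by
        rw [map_add, LinearMap.add_apply, ha.2 y hy, hb.2 y hy, add_zero]⟩
      smul_mem' := fun c a ha => ⟨P.smul_mem c ha.1, fun y hy => by
        rw [map_smul, LinearMap.smul_apply, ha.2 y hy, smul_zero]⟩ }
  have hR : ∀ g, ∀ v ∈ R, ρ g v ∈ R := by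
    rintro g v ⟨hv, hv2⟩
    refine ⟨hP g v hv, fun y hy => ?_⟩
    have h1 : y = ρ g (ρ g⁻¹ y) := by
      rw [← Module.End.mul_apply, ← map_mul, mul_inv_cancel, map_one]
      rfl
    have h2 : s (ρ g v) y = s v (ρ g⁻¹ y) := by
      conv_lhs => rw [h1]
      rw [hs, hs, hinv g v hv _ (hP _ _ hy), hinv g _ (hP _ _ hy) v hv]
    rw [h2]
    exact hv2 _ (hP _ _ hy)
  have hxR : x ∈ R := by
    refine ⟨hx, fun y hy => ?_⟩
    have hexp : ∀ t : ℚ, s (x + t • y) (x + t • y) = 2 * t * s x y + t ^ 2 * s y y := by
      intro t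
      have e1 : q (x + t • y) (x + t • y) = q x x + t * q x y + t * q y x + t ^ 2 * q y y := by
        rw [map_add q, LinearMap.add_apply, map_add (q x), map_add (q (t • y)), map_smul q t y,
          LinearMap.smul_apply, LinearMap.smul_apply, map_smul (q x), map_smul (q y),
          Rat.smul_def, Rat.smul_def, Rat.smul_def, Rat.smul_def]
        ring
      have e2 : q x x = 0 := by
        rw [hs] at hsx
        linarith
      rw [hs, hs, hs, e1, e2]
      ring
    have hyy : 0 ≤ s y y := by
      have := semi y hy 0 (Submodule.zero_mem P) 0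
      rwa [smul_zero, add_zero] at this
    by_contra hne
    -- choose a small rational `t` of the sign opposite to that of `s x y`
    have hq : ∀ t : ℚ, 0 ≤ (t : ℝ) * (2 * s x y + t * s y y) := by
      intro t
      have := semi x hx y hy t
      rw [hexp] at this
      linarith [this, show 2 * (t : ℝ) * s x y + (t : ℝ) ^ 2 * s y y =
        (t : ℝ) * (2 * s x y + t * s y y) by ring]
    rcases lt_or_gt_of_ne hne with h | h
    · obtain ⟨t, ht0, ht1⟩ := exists_rat_btwn (show (0 : ℝ) < - s x y / (s y y + 1) from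
        div_pos (by linarith) (by linarith))
      have h1 := hq t
      have h2 : 0 ≤ 2 * s x y + t * s y y := nonneg_of_mul_nonneg_right h1 ht0
      rw [lt_div_iff₀ (by linarith)] at ht1
      nlinarith
    · obtain ⟨t, ht0, ht1⟩ := exists_rat_btwn (show - s x y / (s y y + 1) < (0 : ℝ) from
        div_neg_of_neg_of_pos (by linarith) (by linarith))
      have h1 := hq t
      have h2 : 2 * s x y + t * s y y ≤ 0 := by
        by_contra h3
        push Not at h3
        have := mul_neg_of_neg_of_pos ht1 h3
        linarith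
      rw [div_lt_iff₀ (by linarith)] at ht0
      nlinarith
  obtain ⟨v, hvR, hv0, hv⟩ : ∃ v ∈ R, v ≠ 0 ∧ ∀ σ : Perm (Fin n), ρ (dg σ) v = v := by
    have : Nontrivial R := ⟨⟨⟨x, hxR⟩, 0, fun h => hx0 (congrArg Subtype.val h)⟩⟩
    let ρ' : Representation ℚ (Perm (Fin n × Bool)) R :=
      { toFun := fun g => (ρ g).restrict (hR g)
        map_one' := by
          ext v
          change ρ 1 (v : H) = v
          rw [map_one]; rfl
        map_mul' := fun g h => by
          ext v
          change ρ (g * h) (v : H) = ρ g (ρ h v)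
          rw [map_mul]; rfl }
    obtain ⟨v, hv, hv'⟩ := exists_diag ρ'
    exact ⟨v, v.2, fun h => hv (Subtype.ext h), fun σ => congrArg Subtype.val (hv' σ)⟩
  have h1 := hpos v hvR.1 hv0 hv
  have h2 := hvR.2 v hvR.1
  rw [hs] at h2
  linarith

end Pool.Agent.Q56.HT
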