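import Pool.Agent.Q56.SP.Exa
import Pool.Agent.Q56.HT.Pos

/-!
# Rational representations of the symmetric group: inclusions, bijections and positivity are detected
on the vectors fixed by the permutations of the pairs
-/

set_option autoImplicit false
set_option linter.unusedSectionVars false

open Equiv Finset

namespace Pool.Agent.Q56.HT

open Pool.Agent.Q56.SP (dg dgs dgs_mul exists_diag)

variable {n : ℕ} {ι : Type} {V : Type*} [AddCommGroup V] [Module ℚ V]

/-- the restriction of a representation to the permutations of `Fin n × Bool` -/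
def resB (ρ : Representation ℚ (Perm ((Fin n × Bool) ⊕ ι)) V) :
    Representation ℚ (Perm (Fin n × Bool)) V where
  toFun g := ρ (g.sumCongr (Equiv.refl ι))
  map_one' := by
    change ρ ((1 : Perm (Fin n × Bool)).sumCongr (1 : Perm ι)) = 1
    rw [Perm.sumCongr_one, map_one]
  map_mul' g h := by
    change ρ ((g * h).sumCongr (1 : Perm ι)) =
      ρ (g.sumCongr (1 : Perm ι)) * ρ (h.sumCongr (1 : Perm ι))
    rw [← map_mul, Perm.sumCongr_mul, one_mul]

theorem resB_dg (ρ : Representation ℚ (Perm ((Fin n × Bool) ⊕ ι)) V) (σ : Perm (Fin n)) :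
    resB ρ (dg σ) = ρ (dgs ι σ) := rfl

/-- the average over `Perm (Fin n)` -/
noncomputable def avq (ρ : Representation ℚ (Perm ((Fin n × Bool) ⊕ ι)) V) (v : V) : V :=
  ((n.factorial : ℚ)⁻¹) • ∑ σ : Perm (Fin n), ρ (dgs ι σ) v

theorem avq_inv (ρ : Representation ℚ (Perm ((Fin n × Bool) ⊕ ι)) V) (v : V) (τ : Perm (Fin n)) :
    ρ (dgs ι τ) (avq ρ v) = avq ρ v := by
  rw [avq, map_smul, map_sum]
  congr 1
  refine Fintype.sum_equiv (Equiv.mulLeft τ) _ _ fun σ => ?_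
  rw [← Module.End.mul_apply, ← map_mul, ← dgs_mul]
  rfl

theorem avq_of_inv (ρ : Representation ℚ (Perm ((Fin n × Bool) ⊕ ι)) V) (v : V)
    (h : ∀ σ : Perm (Fin n), ρ (dgs ι σ) v = v) : avq ρ v = v := by
  rw [avq, sum_congr rfl fun σ _ => h σ, sum_const, card_univ, Fintype.card_perm, Fintype.card_fin,
    ← Nat.cast_smul_eq_nsmul ℚ, smul_smul, inv_mul_cancel₀, one_smul]
  exact_mod_cast n.factorial_ne_zero

theorem avq_mem (ρ : Representation ℚ (Perm ((Fin n × Bool) ⊕ ι)) V) (S : Submodule ℚ V)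
    (hS : ∀ g, ∀ v ∈ S, ρ g v ∈ S) {v : V} (hv : v ∈ S) : avq ρ v ∈ S :=
  S.smul_mem _ (S.sum_mem fun _ _ => hS _ _ hv)

/-- An invariant nonzero submodule contains a nonzero vector fixed by the permutations of the
pairs. -/
theorem exists_inv_mem (ρ : Representation ℚ (Perm ((Fin n × Bool) ⊕ ι)) V) (S : Submodule ℚ V)
    (hS : ∀ g, ∀ v ∈ S, ρ g v ∈ S) (h0 : S ≠ ⊥) :
    ∃ v ∈ S, v ≠ 0 ∧ ∀ σ : Perm (Fin n), ρ (dgs ι σ) v = v := by
  have : Nontrivial S := Submodule.nontrivial_iff_ne_bot.2 h0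
  let ρ' : Representation ℚ (Perm (Fin n × Bool)) S :=
    { toFun := fun g => (resB ρ g).restrict (hS _)
      map_one' := by
        ext v
        change resB ρ 1 (v : V) = v
        rw [map_one]; rfl
      map_mul' := by
        intro g h
        ext v
        change resB ρ (g * h) (v : V) = resB ρ g (resB ρ h v)
        rw [map_mul]; rfl }
  obtain ⟨v, hv, hv2⟩ := exists_diag ρ'
  exact ⟨v, v.2, fun h => hv (Subtype.ext h), fun σ => congrArg Subtype.val (hv2 σ)⟩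

/-- If the vectors of `S` fixed by the permutations of the pairs are in `T`, then `S ≤ T`. -/
theorem le_of_inv (ρ : Representation ℚ (Perm ((Fin n × Bool) ⊕ ι)) V) (S T : Submodule ℚ V)
    (hS : ∀ g, ∀ v ∈ S, ρ g v ∈ S) (hT : ∀ g, ∀ v ∈ T, ρ g v ∈ T)
    (h : ∀ v ∈ S, (∀ σ : Perm (Fin n), ρ (dgs ι σ) v = v) → v ∈ T) : S ≤ T := by
  let ρ' : Representation ℚ (Perm ((Fin n × Bool) ⊕ ι)) (V ⧸ T) :=
    { toFun := fun g => T.mapQ T (ρ g) (hT g)
      map_one' := by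
        ext v
        change T.mkQ (ρ 1 v) = T.mkQ v
        rw [map_one]; rfl
      map_mul' := by
        intro g h
        ext v
        change T.mkQ (ρ (g * h) (v : V)) = T.mkQ (ρ g (ρ h v))
        rw [map_mul]; rfl }
  by_contra hcon
  obtain ⟨q, hq, hq0, hq2⟩ := exists_inv_mem ρ' (S.map T.mkQ) (by
    rintro g _ ⟨v, hv, rfl⟩
    exact ⟨ρ g v, hS g v hv, rfl⟩) (by
    intro h0
    apply hcon
    intro v hv
    have : T.mkQ v = 0 := by
      have h1 : T.mkQ v ∈ S.map T.mkQ := ⟨v, hv, rfl⟩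
      rw [h0] at h1
      exact h1
    exact (Submodule.Quotient.mk_eq_zero T).1 this)
  obtain ⟨v, hv, rfl⟩ := hq
  have h1 := h (avq ρ v) (avq_mem ρ S hS hv) (avq_inv ρ v)
  have h2 : T.mkQ (avq ρ v) = avq ρ' (T.mkQ v) := by
    rw [avq, avq, map_smul, map_sum]
    rfl
  rw [avq_of_inv ρ' _ hq2] at h2
  exact hq0 (h2.symm.trans ((Submodule.Quotient.mk_eq_zero T).2 h1))

/-- An equivariant map which maps `S` into `T` maps it bijectively onto `T` if and only if it does so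
for the vectors fixed by the permutations of the pairs. -/
theorem bijOn_iff (ρ : Representation ℚ (Perm ((Fin n × Bool) ⊕ ι)) V) (S T : Submodule ℚ V)
    (hS : ∀ g, ∀ v ∈ S, ρ g v ∈ S) (hT : ∀ g, ∀ v ∈ T, ρ g v ∈ T) (f : V →ₗ[ℚ] V)
    (hf : ∀ g v, f (ρ g v) = ρ g (f v)) (hST : ∀ v ∈ S, f v ∈ T) :
    Set.BijOn f S T ↔
      (∀ v ∈ S, (∀ σ : Perm (Fin n), ρ (dgs ι σ) v = v) → f v = 0 → v = 0) ∧
        ∀ w ∈ T, (∀ σ : Perm (Fin n), ρ (dgs ι σ) w = w) →
          ∃ v ∈ S, (∀ σ : Perm (Fin n), ρ (dgs ι σ) v = v) ∧ f v = w := by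
  constructor
  · rintro ⟨-, hinj, hsurj⟩
    refine ⟨fun v hv _ h0 => hinj hv S.zero_mem (by rw [h0, map_zero]), fun w hw hw2 => ?_⟩
    obtain ⟨v, hv, rfl⟩ := hsurj hw
    refine ⟨v, hv, fun σ => hinj (hS _ v hv) hv ?_, rfl⟩
    rw [hf, hw2]
  · rintro ⟨h1, h2⟩
    have hker : S ⊓ LinearMap.ker f ≤ ⊥ := by
      refine le_of_inv ρ _ _ ?_ ?_ ?_
      · rintro g v ⟨hv, hv2⟩
        refine ⟨hS g v hv, ?_⟩
        change f (ρ g v) = 0
        rw [hf]
        rw [show f v = 0 from hv2, map_zero]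
      · intro g v hv
        rw [Submodule.mem_bot] at hv ⊢
        rw [hv, map_zero]
      · rintro v ⟨hv, hv2⟩ hv3
        exact h1 v hv hv3 hv2
    have him : T ≤ S.map f := by
      refine le_of_inv ρ _ _ hT ?_ ?_
      · rintro g _ ⟨v, hv, rfl⟩
        exact ⟨ρ g v, hS g v hv, hf g v⟩
      · intro w hw hw2
        obtain ⟨v, hv, -, hv3⟩ := h2 w hw hw2
        exact ⟨v, hv, hv3⟩
    refine ⟨hST, fun v hv w hw hvw => ?_, fun w hw => ?_⟩
    · have h3 : v - w ∈ (⊥ : Submodule ℚ V) := hker ⟨S.sub_mem hv hw, by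
        change f (v - w) = 0
        rw [map_sub, hvw, sub_self]⟩
      exact sub_eq_zero.1 h3
    · obtain ⟨v, hv, hv2⟩ := him hw
      exact ⟨v, hv, hv2⟩

/-- Positivity of a real-valued invariant form on an invariant submodule is detected on the vectors
fixed by the permutations of the pairs. -/
theorem pos_of_inv (ρ : Representation ℚ (Perm ((Fin n × Bool) ⊕ ι)) V) (P : Submodule ℚ V)
    (hP : ∀ g, ∀ v ∈ P, ρ g v ∈ P) (q : V →ₗ[ℚ] V →ₗ[ℚ] ℝ)
    (hinv : ∀ g, ∀ x ∈ P, ∀ y ∈ P, q (ρ g x) (ρ g y) = q x y)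
    (hpos : ∀ v ∈ P, v ≠ 0 → (∀ σ : Perm (Fin n), ρ (dgs ι σ) v = v) → 0 < q v v) :
    ∀ x ∈ P, x ≠ 0 → 0 < q x x :=
  pos_iff (resB ρ) P (fun _ => hP _) q (fun _ => hinv _) hpos

end Pool.Agent.Q56.HT
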